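import Mathlib
import Pool.Agent.X129.LottoODE

/-!
Uniqueness of the aggregate population strategy in Population Lotto equilibria.
-/

set_option autoImplicit false
set_option linter.unusedSectionVars false
set_option linter.unusedVariables false

namespace Pool.Agent.Results.MP_ed16aa_pr.AggregateUnique

open Set Filter Topology MeasureTheory ProbabilityTheory
open scoped ENNReal

noncomputable section

/-- `h` is a strategy for a player with budget `b`: a probability distribution on `[0,∞)` with
mean exactly `b`. -/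
structure IsStrategy (h : Measure ℝ) (b : ℝ) : Prop where
  prob : IsProbabilityMeasure h
  nonneg : h (Iio 0) = 0
  integrable : Integrable (fun x : ℝ => x) h
  mean : ∫ x, x ∂h = b

/-- Expected payoff `P(X > Y) + P(X = Y)/2` of `X ∼ h` against `Y ∼ g`. -/
def payoff (g h : Measure ℝ) : ℝ := ∫ x, (g.real (Iio x) + g.real {x} / 2) ∂h

/-- The aggregate population strategy: the mixture of the strategies `f i` of the players `i`. -/
def aggregate {I : Type*} [MeasurableSpace I] (ν : Measure I) (f : Kernel I ℝ) : Measure ℝ :=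
  ν.bind f

/-- Nash equilibrium of the Population Lotto game with budget distribution `B`. The population is
an arbitrary probability space `(I,ν)` of players, `b i` is the budget and `f i` the strategy of
player `i`, and the budgets have distribution `B`. -/
structure IsEquilibrium (B : Measure ℝ) {I : Type*} [MeasurableSpace I] (ν : Measure I)
    (b : I → ℝ) (f : Kernel I ℝ) : Prop where
  prob : IsProbabilityMeasure ν
  budget_meas : Measurable b
  law : ν.map b = B
  markov : IsMarkovKernel f
  strategy : ∀ᵐ i ∂ν, IsStrategy (f i) (b i)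
  optimal : ∀ᵐ i ∂ν, ∀ h, IsStrategy h (b i) →
    payoff (aggregate ν f) h ≤ payoff (aggregate ν f) (f i)

/-! ### The payoff function -/

section payoffs

variable (g : Measure ℝ) [IsProbabilityMeasure g]

/-- payoff of the pure allocation x -/
def U (x : ℝ) : ℝ := g.real (Iio x) + g.real {x} / 2

lemma U_eq (x : ℝ) : U g x = (g.real (Iio x) + g.real (Iic x)) / 2 := by
  unfold U
  have : g.real (Iic x) = g.real (Iio x) + g.real {x} := by
    rw [← Iio_union_right (a := x), measureReal_union (by simp) (measurableSet_singleton x)]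
  rw [this]; ring

lemma U_mono : Monotone (U g) := by
  intro x y hxy
  rw [U_eq, U_eq]
  have h1 : g.real (Iio x) ≤ g.real (Iio y) := measureReal_mono (Iio_subset_Iio hxy)
  have h2 : g.real (Iic x) ≤ g.real (Iic y) := measureReal_mono (Iic_subset_Iic.mpr hxy)
  linarith

omit [IsProbabilityMeasure g] in
lemma U_nonneg (x : ℝ) : 0 ≤ U g x := by
  unfold U; positivity

lemma U_le_one (x : ℝ) : U g x ≤ 1 := by
  rw [U_eq]
  have h1 : g.real (Iio x) ≤ 1 := measureReal_le_one
  have h2 : g.real (Iic x) ≤ 1 := measureReal_le_one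
  linarith

lemma U_integrable (h : Measure ℝ) [IsFiniteMeasure h] : Integrable (U g) h :=
  Integrable.of_bound (U_mono g).measurable.aestronglyMeasurable 1
    (Eventually.of_forall (fun x => by
      rw [Real.norm_of_nonneg (U_nonneg g x)]; exact U_le_one g x))

end payoffs

lemma ae_nonneg {h : Measure ℝ} (hh : h (Iio 0) = 0) : ∀ᵐ x ∂h, 0 ≤ x := by
  rw [ae_iff]
  have : {a : ℝ | ¬ 0 ≤ a} = Iio 0 := by ext x; simp
  rw [this]; exact hh

/-- two-point strategies -/
lemma twoPoint (g : Measure ℝ) [IsProbabilityMeasure g] {x z b : ℝ} (hx : 0 ≤ x) (hxb : x < b) (hbz : b < z) :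
    ∃ h, IsStrategy h b ∧ payoff g h = (z - b) / (z - x) * U g x + (b - x) / (z - x) * U g z := by
  have hzx : 0 < z - x := by linarith
  have hw1 : 0 ≤ (z - b) / (z - x) := div_nonneg (by linarith) hzx.le
  have hw2 : 0 ≤ (b - x) / (z - x) := div_nonneg (by linarith) hzx.le
  have hsum : (z - b) / (z - x) + (b - x) / (z - x) = 1 := by
    rw [← add_div]; rw [div_eq_one_iff_eq hzx.ne']; ring
  set h : Measure ℝ := ENNReal.ofReal ((z - b) / (z - x)) • Measure.dirac x +
    ENNReal.ofReal ((b - x) / (z - x)) • Measure.dirac z with hh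
  have hprob : IsProbabilityMeasure h := by
    constructor
    rw [hh, Measure.add_apply, Measure.smul_apply, Measure.smul_apply, measure_univ, measure_univ,
      smul_eq_mul, smul_eq_mul, mul_one, mul_one, ← ENNReal.ofReal_add hw1 hw2, hsum, ENNReal.ofReal_one]
  have hint : ∀ φ : ℝ → ℝ, Measurable φ → Integrable φ h ∧
      ∫ y, φ y ∂h = (z - b) / (z - x) * φ x + (b - x) / (z - x) * φ z := by
    intro φ hφ
    have i1 : Integrable φ (ENNReal.ofReal ((z - b) / (z - x)) • Measure.dirac x) :=
      (integrable_dirac' hφ.stronglyMeasurable (by simp)).smul_measure ENNReal.ofReal_ne_top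
    have i2 : Integrable φ (ENNReal.ofReal ((b - x) / (z - x)) • Measure.dirac z) :=
      (integrable_dirac' hφ.stronglyMeasurable (by simp)).smul_measure ENNReal.ofReal_ne_top
    refine ⟨i1.add_measure i2, ?_⟩
    rw [hh, integral_add_measure i1 i2, integral_smul_measure, integral_smul_measure,
      integral_dirac' _ _ hφ.stronglyMeasurable, integral_dirac' _ _ hφ.stronglyMeasurable,
      ENNReal.toReal_ofReal hw1, ENNReal.toReal_ofReal hw2]
    simp
  refine ⟨h, ⟨hprob, ?_, (hint (fun y => y) measurable_id).1, ?_⟩, ?_⟩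
  · rw [hh, Measure.add_apply, Measure.smul_apply, Measure.smul_apply,
      Measure.dirac_apply' _ measurableSet_Iio, Measure.dirac_apply' _ measurableSet_Iio]
    rw [indicator_of_notMem (by simpa using hx), indicator_of_notMem (by simp; linarith)]
    simp
  · rw [(hint (fun y => y) measurable_id).2]
    field_simp
    ring
  · exact (hint (U g) (U_mono g).measurable).2

lemma dirac_strategy (g : Measure ℝ) [IsProbabilityMeasure g] {b : ℝ} (hb : 0 < b) :
    IsStrategy (Measure.dirac b) b ∧ payoff g (Measure.dirac b) = U g b := by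
  refine ⟨⟨inferInstance, ?_, ?_, ?_⟩, ?_⟩
  · rw [Measure.dirac_apply' _ measurableSet_Iio, indicator_of_notMem (by simp; linarith)]
  · exact integrable_dirac' (by fun_prop) (by simp)
  · rw [integral_dirac' _ _ (by fun_prop)]
  · exact integral_dirac' _ _ (U_mono g).measurable.stronglyMeasurable

/-- supporting line at an optimal strategy -/
lemma support_line (g : Measure ℝ) [IsProbabilityMeasure g] {b : ℝ} (hb : 0 < b) {f : Measure ℝ}
    (hf : IsStrategy f b) (hopt : ∀ h, IsStrategy h b → payoff g h ≤ payoff g f) :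
    ∃ V p : ℝ, (∀ x, 0 ≤ x → U g x ≤ V + p * (x - b)) ∧ ∀ᵐ x ∂f, U g x = V + p * (x - b) := by
  have hprob := hf.prob
  set V := payoff g f with hV
  have hmain : ∀ x z, 0 ≤ x → x < b → b < z → (U g z - V) / (z - b) ≤ (V - U g x) / (b - x) := by
    intro x z hx hxb hbz
    obtain ⟨h, hs, hp⟩ := twoPoint g hx hxb hbz
    have h1 := hopt h hs
    rw [hp] at h1
    have hzx : 0 < z - x := by linarith
    have h2 : (z - b) * U g x + (b - x) * U g z ≤ V * (z - x) := by
      have h3 : (z - b) / (z - x) * U g x + (b - x) / (z - x) * U g z =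
          ((z - b) * U g x + (b - x) * U g z) / (z - x) := by field_simp
      rw [h3, div_le_iff₀ hzx] at h1
      exact h1
    rw [div_le_div_iff₀ (by linarith) (by linarith)]
    nlinarith
  set A : Set ℝ := (fun z => (U g z - V) / (z - b)) '' Ioi b with hA
  have hAbdd : BddAbove A := by
    refine ⟨(V - U g 0) / (b - 0), ?_⟩
    rintro _ ⟨z, hz, rfl⟩
    exact hmain 0 z le_rfl hb hz
  have hAne : A.Nonempty := ⟨_, b + 1, by simp, rfl⟩
  set p := sSup A with hp
  have hub : ∀ x, 0 ≤ x → U g x ≤ V + p * (x - b) := by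
    intro x hx
    rcases lt_trichotomy x b with h | h | h
    · have h1 : p ≤ (V - U g x) / (b - x) := by
        apply csSup_le hAne
        rintro _ ⟨z, hz, rfl⟩
        exact hmain x z hx h hz
      rw [le_div_iff₀ (by linarith)] at h1
      linarith
    · subst h
      obtain ⟨h1, h2⟩ := dirac_strategy g hb
      have h3 := hopt _ h1
      rw [h2] at h3
      simp only [sub_self, mul_zero, add_zero]
      exact h3
    · have h1 : (U g x - V) / (x - b) ≤ p := le_csSup hAbdd ⟨x, h, rfl⟩
      rw [div_le_iff₀ (by linarith)] at h1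
      linarith
  refine ⟨V, p, hub, ?_⟩
  have hUint : Integrable (U g) f := U_integrable g f
  have hlin : Integrable (fun x => V + p * (x - b)) f :=
    (integrable_const V).add ((hf.integrable.sub (integrable_const b)).const_mul p)
  have hdiff : Integrable (fun x => V + p * (x - b) - U g x) f := hlin.sub hUint
  have hnn : 0 ≤ᵐ[f] (fun x => V + p * (x - b) - U g x) := by
    filter_upwards [ae_nonneg hf.nonneg] with x hx
    have := hub x hx
    simp only [Pi.zero_apply]
    linarith
  have hval : ∫ x, (V + p * (x - b) - U g x) ∂f = 0 := by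
    have e1 : ∫ x, (V + p * (x - b) - U g x) ∂f = (∫ x, (V + p * (x - b)) ∂f) - ∫ x, U g x ∂f :=
      integral_sub hlin hUint
    have e2 : ∫ x, (V + p * (x - b)) ∂f = V := by
      have i1 : Integrable (fun x : ℝ => x - b) f := hf.integrable.sub (integrable_const b)
      have i2 : Integrable (fun x : ℝ => p * (x - b)) f := i1.const_mul p
      rw [integral_add (integrable_const V) i2, integral_const_mul,
        integral_sub hf.integrable (integrable_const b), hf.mean]
      simp
    have e3 : ∫ x, U g x ∂f = V := rfl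
    rw [e1, e2, e3, sub_self]
  rw [integral_eq_zero_iff_of_nonneg_ae hnn hdiff] at hval
  filter_upwards [hval] with x hx
  simp only [Pi.zero_apply] at hx
  linarith

/-! ### Structure of an equilibrium -/

section equilibrium

variable {B : Measure ℝ} [IsProbabilityMeasure B] {I : Type*} [MeasurableSpace I] {ν : Measure I}
  {b : I → ℝ} {f : Kernel I ℝ}

lemma agg_apply (hE : IsEquilibrium B ν b f) {S : Set ℝ} (hS : MeasurableSet S) :
    aggregate ν f S = ∫⁻ i, f i S ∂ν := Measure.bind_apply hS f.aemeasurable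

lemma agg_prob (hE : IsEquilibrium B ν b f) : IsProbabilityMeasure (aggregate ν f) := by
  have h1 := hE.prob
  have h2 := hE.markov
  constructor
  rw [agg_apply hE MeasurableSet.univ]
  simp

/-- the good players -/
lemma good_players (hB : B (Iic 0) = 0) (hE : IsEquilibrium B ν b f) :
    ∀ᵐ i ∂ν, 0 < b i ∧ IsStrategy (f i) (b i) ∧ ∃ V p : ℝ,
      (∀ x, 0 ≤ x → U (aggregate ν f) x ≤ V + p * (x - b i)) ∧
        ∀ᵐ x ∂(f i), U (aggregate ν f) x = V + p * (x - b i) := by
  have hg := agg_prob hE
  have hb : ∀ᵐ i ∂ν, 0 < b i := by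
    have h1 : ν (b ⁻¹' Iic 0) = 0 := by
      rw [← Measure.map_apply hE.budget_meas measurableSet_Iic, hE.law, hB]
    rw [ae_iff]
    have : {i | ¬ 0 < b i} = b ⁻¹' Iic 0 := by ext i; simp
    rw [this]; exact h1
  filter_upwards [hb, hE.strategy, hE.optimal] with i h1 h2 h3
  exact ⟨h1, h2, support_line (aggregate ν f) h1 h2 h3⟩

lemma agg_neg (hE : IsEquilibrium B ν b f) : aggregate ν f (Iio 0) = 0 := by
  rw [agg_apply hE measurableSet_Iio, lintegral_eq_zero_iff (f.measurable_coe measurableSet_Iio)]
  filter_upwards [hE.strategy] with i hi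
  exact hi.nonneg

lemma agg_noAtom (hB : B (Iic 0) = 0) (hE : IsEquilibrium B ν b f) (x : ℝ) :
    aggregate ν f {x} = 0 := by
  have hg := agg_prob hE
  rcases lt_or_ge x 0 with hx | hx
  · exact measure_mono_null (singleton_subset_iff.mpr hx) (agg_neg hE)
  · by_contra hne
    have h1 : aggregate ν f {x} = ∫⁻ i, f i {x} ∂ν := agg_apply hE (measurableSet_singleton x)
    have h2 : ∃ i, f i {x} ≠ 0 ∧ ∃ V p : ℝ,
      (∀ x, 0 ≤ x → U (aggregate ν f) x ≤ V + p * (x - b i)) ∧
        ∀ᵐ x ∂(f i), U (aggregate ν f) x = V + p * (x - b i) := by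
      by_contra hcon
      apply hne
      rw [h1, lintegral_eq_zero_iff (f.measurable_coe (measurableSet_singleton x))]
      filter_upwards [good_players hB hE] with i hi
      by_contra h3
      obtain ⟨_, _, V, p, h4, h5⟩ := hi
      exact hcon ⟨i, h3, V, p, h4, h5⟩
    obtain ⟨i, h3, V, p, h4, h5⟩ := h2
    have hUx : U (aggregate ν f) x = V + p * (x - b i) := by
      by_contra h6
      apply h3
      refine measure_mono_null (singleton_subset_iff.mpr ?_) (ae_iff.mp h5)
      exact h6
    set m := (aggregate ν f).real {x} with hm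
    have hm0 : 0 < m := by
      rw [hm, Measure.real]
      exact ENNReal.toReal_pos hne (measure_ne_top _ _)
    have h7 : ∀ y, x < y → m / 2 ≤ p * (y - x) := by
      intro y hy
      have h8 := h4 y (hx.trans hy.le)
      have h9 : U (aggregate ν f) x + m / 2 ≤ U (aggregate ν f) y := by
        have e1 : (aggregate ν f).real (Iic x) = (aggregate ν f).real (Iio x) + m := by
          rw [← Iio_union_right (a := x), measureReal_union (by simp) (measurableSet_singleton x)]
        have e2 : (aggregate ν f).real (Iic x) ≤ (aggregate ν f).real (Iio y) :=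
          measureReal_mono (fun z hz => lt_of_le_of_lt hz hy)
        have e3 : (aggregate ν f).real (Iio y) ≤ (aggregate ν f).real (Iic y) :=
          measureReal_mono Iio_subset_Iic_self
        rw [U_eq (aggregate ν f) y]
        unfold U
        rw [← hm]
        linarith
      rw [hUx] at h9
      linarith
    rcases le_or_gt p 0 with hp | hp
    · have := h7 (x + 1) (by linarith)
      nlinarith
    · have := h7 (x + m / (4 * p)) (by have : 0 < m / (4 * p) := by positivity
                                       linarith)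
      have e : p * (x + m / (4 * p) - x) = m / 4 := by field_simp; ring
      rw [e] at this
      linarith

/-- distribution function of the aggregate -/
def GG (ν : Measure I) (f : Kernel I ℝ) (x : ℝ) : ℝ := (aggregate ν f).real (Iic x)

lemma U_eq_GG (hB : B (Iic 0) = 0) (hE : IsEquilibrium B ν b f) (x : ℝ) :
    U (aggregate ν f) x = GG ν f x := by
  have hg := agg_prob hE
  have h0 : (aggregate ν f).real {x} = 0 := by
    rw [Measure.real, agg_noAtom hB hE x]; rfl
  unfold U GG
  rw [← Iio_union_right (a := x), measureReal_union (by simp) (measurableSet_singleton x), h0]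
  ring

lemma GG_mono (hE : IsEquilibrium B ν b f) : Monotone (GG ν f) := by
  have hg := agg_prob hE
  intro x y hxy
  exact measureReal_mono (Iic_subset_Iic.mpr hxy)

lemma GG_cdf (hE : IsEquilibrium B ν b f) (x : ℝ) : GG ν f x = cdf (aggregate ν f) x := by
  have hg := agg_prob hE
  rw [cdf_eq_real]; rfl

lemma GG_cont (hB : B (Iic 0) = 0) (hE : IsEquilibrium B ν b f) : Continuous (GG ν f) := by
  have hg := agg_prob hE
  have hfun : GG ν f = (cdf (aggregate ν f)) := funext (GG_cdf hE)
  rw [continuous_iff_continuousAt]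
  intro x
  have hmono : Monotone (GG ν f) := GG_mono hE
  rw [hmono.continuousAt_iff_leftLim_eq_rightLim]
  have h1 : Function.rightLim (GG ν f) x = GG ν f x := by
    rw [hfun]; exact (cdf (aggregate ν f)).rightLim_eq x
  have h2 : Function.leftLim (GG ν f) x = GG ν f x := by
    apply le_antisymm (hmono.leftLim_le le_rfl)
    have h3 := (cdf (aggregate ν f)).measure_singleton x
    rw [measure_cdf, agg_noAtom hB hE x] at h3
    rw [hfun]
    have h4 := h3.symm
    rw [ENNReal.ofReal_eq_zero] at h4
    linarith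
  rw [h1, h2]

/-- integral of the tail -/
lemma tail_integral (hE : IsEquilibrium B ν b f) {t : ℝ} (ht : 0 ≤ t) :
    ∫ s in (0 : ℝ)..t, (1 - GG ν f s) = ∫ x, min x t ∂(aggregate ν f) := by
  have hg := agg_prob hE
  set g := aggregate ν f with hgdef
  have h1 : ∀ s, 1 - GG ν f s = ∫ x, (Ioi s).indicator (fun _ => (1 : ℝ)) x ∂g := by
    intro s
    rw [integral_indicator_const _ measurableSet_Ioi]
    have h2 : g.real (Ioi s) = 1 - g.real (Iic s) := by
      rw [← compl_Iic, probReal_compl_eq_one_sub measurableSet_Iic]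
    rw [h2]
    simp [GG, hgdef]
  have hmeas : Measurable (fun z : ℝ × ℝ => (Ioi z.1).indicator (fun _ => (1 : ℝ)) z.2) := by
    have : (fun z : ℝ × ℝ => (Ioi z.1).indicator (fun _ => (1 : ℝ)) z.2) =
        {z : ℝ × ℝ | z.1 < z.2}.indicator (fun _ => (1 : ℝ)) := by
      ext z
      by_cases h : z.1 < z.2
      · rw [indicator_of_mem (show z.2 ∈ Ioi z.1 from h), indicator_of_mem (show z ∈ {z : ℝ × ℝ | z.1 < z.2} from h)]
      · rw [indicator_of_notMem (show z.2 ∉ Ioi z.1 from h), indicator_of_notMem (show z ∉ {z : ℝ × ℝ | z.1 < z.2} from h)]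
    rw [this]
    exact measurable_const.indicator (measurableSet_lt measurable_fst measurable_snd)
  have hfin : IsFiniteMeasure (volume.restrict (Ioc 0 t)) := ⟨by simp⟩
  have hint : Integrable (Function.uncurry (fun (s x : ℝ) => (Ioi s).indicator (fun _ => (1 : ℝ)) x))
      ((volume.restrict (Ioc 0 t)).prod g) := by
    refine Integrable.of_bound hmeas.aestronglyMeasurable 1 (Eventually.of_forall (fun z => ?_))
    simp only [Function.uncurry]
    by_cases h : z.2 ∈ Ioi z.1
    · rw [indicator_of_mem h]; simp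
    · rw [indicator_of_notMem h]; simp
  rw [intervalIntegral.integral_of_le ht]
  simp only [h1]
  rw [integral_integral_swap hint]
  refine integral_congr_ae ?_
  filter_upwards [ae_nonneg (agg_neg hE)] with x hx
  have h3 : ∀ s, (Ioi s).indicator (fun _ => (1 : ℝ)) x = (Iio x).indicator (fun _ => (1 : ℝ)) s := by
    intro s
    by_cases h : s < x
    · rw [indicator_of_mem (show x ∈ Ioi s from h), indicator_of_mem (show s ∈ Iio x from h)]
    · rw [indicator_of_notMem (show x ∉ Ioi s from h), indicator_of_notMem (show s ∉ Iio x from h)]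
  simp only [h3]
  rw [integral_indicator_const _ measurableSet_Iio, Measure.real, Measure.restrict_apply measurableSet_Iio]
  rcases le_or_gt x t with hxt | hxt
  · have : Iio x ∩ Ioc 0 t = Ioo 0 x := by
      ext s; simp only [mem_inter_iff, mem_Iio, mem_Ioc, mem_Ioo]
      constructor
      · rintro ⟨h4, h5, _⟩; exact ⟨h5, h4⟩
      · rintro ⟨h4, h5⟩; exact ⟨h5, h4, h5.le.trans hxt⟩
    rw [this, Real.volume_Ioo, min_eq_left hxt]
    simp [hx]
  · have : Iio x ∩ Ioc 0 t = Ioc 0 t := by
      ext s; simp only [mem_inter_iff, mem_Iio, mem_Ioc]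
      constructor
      · rintro ⟨_, h5⟩; exact h5
      · rintro ⟨h4, h5⟩; exact ⟨lt_of_le_of_lt h5 hxt, h4, h5⟩
    rw [this, Real.volume_Ioc, min_eq_right hxt.le]
    simp [ht]

/-- potentials as lintegrals -/
lemma min_lintegral {h : Measure ℝ} [IsFiniteMeasure h] (hh : h (Iio 0) = 0) {t : ℝ} (ht : 0 ≤ t) :
    ENNReal.ofReal (∫ x, min x t ∂h) = ∫⁻ x, ENNReal.ofReal (min x t) ∂h := by
  apply ofReal_integral_eq_lintegral_ofReal
  · refine Integrable.of_bound (by fun_prop) t ?_
    filter_upwards [ae_nonneg hh] with x hx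
    rw [Real.norm_of_nonneg (le_min hx ht)]
    exact min_le_right _ _
  · filter_upwards [ae_nonneg hh] with x hx
    exact le_min hx ht

lemma strat_min_le {h : Measure ℝ} {c : ℝ} (hs : IsStrategy h c) {t : ℝ} (ht : 0 ≤ t) :
    ∫ x, min x t ∂h ≤ min c t := by
  have hp := hs.prob
  have hint : Integrable (fun x : ℝ => min x t) h := by
    refine Integrable.of_bound (by fun_prop) t ?_
    filter_upwards [ae_nonneg hs.nonneg] with x hx
    rw [Real.norm_of_nonneg (le_min hx ht)]
    exact min_le_right _ _
  apply le_min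
  · calc ∫ x, min x t ∂h ≤ ∫ x, x ∂h := integral_mono hint hs.integrable (fun x => min_le_left _ _)
      _ = c := hs.mean
  · calc ∫ x, min x t ∂h ≤ ∫ _x, t ∂h := integral_mono hint (integrable_const _) (fun x => min_le_right _ _)
      _ = t := by simp

lemma strat_sides {h : Measure ℝ} {c : ℝ} (hs : IsStrategy h c) {t : ℝ}
    (hlt : ∫ x, min x t ∂h < min c t) : h (Ioi t) ≠ 0 ∧ h (Iio t) ≠ 0 := by
  have hp := hs.prob
  constructor
  · intro h0
    have hae : ∀ᵐ x ∂h, x ≤ t := by
      rw [ae_iff]
      have : {a : ℝ | ¬ a ≤ t} = Ioi t := by ext x; simp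
      rw [this]; exact h0
    have : ∫ x, min x t ∂h = c := by
      rw [← hs.mean]
      refine integral_congr_ae ?_
      filter_upwards [hae] with x hx
      exact min_eq_left hx
    rw [this] at hlt
    exact absurd (min_le_left c t) (not_le.mpr hlt)
  · intro h0
    have hae : ∀ᵐ x ∂h, t ≤ x := by
      rw [ae_iff]
      have : {a : ℝ | ¬ t ≤ a} = Iio t := by ext x; simp
      rw [this]; exact h0
    have : ∫ x, min x t ∂h = t := by
      have e : ∫ x, min x t ∂h = ∫ _x, t ∂h := by
        refine integral_congr_ae ?_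
        filter_upwards [hae] with x hx
        exact min_eq_right hx
      rw [e]; simp
    rw [this] at hlt
    exact absurd (min_le_right c t) (not_le.mpr hlt)

/-- potential of the budget distribution -/
def QB (B : Measure ℝ) (t : ℝ) : ℝ := ∫ y, min y t ∂B

lemma agg_lintegral (hE : IsEquilibrium B ν b f) {φ : ℝ → ℝ≥0∞} (hφ : Measurable φ) :
    ∫⁻ x, φ x ∂(aggregate ν f) = ∫⁻ i, ∫⁻ x, φ x ∂(f i) ∂ν :=
  Measure.lintegral_bind f.aemeasurable hφ.aemeasurable

lemma QB_lintegral (hB : B (Iic 0) = 0) (hE : IsEquilibrium B ν b f) {t : ℝ} (ht : 0 ≤ t) :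
    ENNReal.ofReal (QB B t) = ∫⁻ i, ENNReal.ofReal (min (b i) t) ∂ν := by
  unfold QB
  rw [min_lintegral (measure_mono_null Iio_subset_Iic_self hB) ht]
  conv_lhs => rw [← hE.law]
  rw [lintegral_map (by fun_prop) hE.budget_meas]

lemma good_of (hB : B (Iic 0) = 0) (hE : IsEquilibrium B ν b f) :
    Pool.Agent.X129.LottoODE.Good (QB B) (GG ν f) := by
  have hg := agg_prob hE
  have hgood := good_players hB hE
  have hUG := U_eq_GG hB hE
  have hmono := GG_mono hE
  have hcont := GG_cont hB hE
  have hconc : ConcaveOn ℝ (Ici 0) (GG ν f) := by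
    -- chord inequality
    have chord : ∀ a c x, 0 ≤ a → a < c → x ∈ Ioo a c →
        GG ν f a + (GG ν f c - GG ν f a) / (c - a) * (x - a) ≤ GG ν f x := by
      intro a c x ha hac hx
      by_contra hcon
      push Not at hcon
      set G := GG ν f with hG
      set ℓ : ℝ → ℝ := fun y => G a + (G c - G a) / (c - a) * (y - a) with hℓ
      have hca : 0 < c - a := by linarith
      have hslope : 0 ≤ (G c - G a) / (c - a) := div_nonneg (by linarith [hmono hac.le]) hca.le
      have hℓc : ℓ c = G c := by simp only [hℓ]; field_simp; ring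
      have hℓa : ℓ a = G a := by simp only [hℓ]; ring
      have hℓcont : Continuous ℓ := by simp only [hℓ]; fun_prop
      set K : Set ℝ := Icc x c ∩ (fun y => G y - ℓ y) ⁻¹' (Ici 0) with hK
      have hKc : IsCompact K := isCompact_Icc.inter_right (isClosed_Ici.preimage (hcont.sub hℓcont))
      have hKne : K.Nonempty := ⟨c, ⟨hx.2.le, le_rfl⟩, by
        change 0 ≤ G c - ℓ c
        rw [hℓc, sub_self]⟩
      obtain ⟨β, hβ, hβmin⟩ := hKc.exists_isLeast hKne
      have hβ0 : 0 ≤ G β - ℓ β := hβ.2
      have hneg : ∀ y, x ≤ y → y < β → G y < ℓ y := by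
        intro y hy1 hy2
        by_contra h
        push Not at h
        have hmem : y ∈ K := ⟨⟨hy1, hy2.le.trans hβ.1.2⟩, by
          change 0 ≤ G y - ℓ y
          linarith⟩
        exact absurd (hβmin hmem) (not_le.mpr hy2)
      have hzero : aggregate ν f (Ico x β) = 0 := by
        rw [agg_apply hE measurableSet_Ico, lintegral_eq_zero_iff (f.measurable_coe measurableSet_Ico)]
        filter_upwards [hgood] with i hi
        obtain ⟨_, _, V, p, h4, h5⟩ := hi
        refine measure_mono_null ?_ (ae_iff.mp h5)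
        intro y hy h6
        have hy0 : a < y := lt_of_lt_of_le hx.1 hy.1
        have hyc : y < c := lt_of_lt_of_le hy.2 hβ.1.2
        have e1 := h4 a ha
        have e2 := h4 c (ha.trans hac.le)
        rw [hUG] at e1 e2 h6
        have e3 := hneg y hy.1 hy.2
        -- ℓ y is the interpolation
        have e4 : ℓ y * (c - a) = G a * (c - y) + G c * (y - a) := by
          simp only [hℓ]; field_simp; ring
        have e5 : (V + p * (y - b i)) * (c - a) = (V + p * (a - b i)) * (c - y) + (V + p * (c - b i)) * (y - a) := by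
          ring
        have e6 : ℓ y * (c - a) ≤ (V + p * (y - b i)) * (c - a) := by
          rw [e4, e5]
          have m1 := mul_le_mul_of_nonneg_right e1 (by linarith : 0 ≤ c - y)
          have m2 := mul_le_mul_of_nonneg_right e2 (by linarith : 0 ≤ y - a)
          linarith
        have e7 := le_of_mul_le_mul_right e6 hca
        have e8 : G y = V + p * (y - b i) := h6
        linarith
      have hGβ : G β ≤ G x := by
        have e1 : Iic β ⊆ Iic x ∪ (Ico x β ∪ {β}) := by
          intro y hy
          rcases lt_or_ge y x with h | h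
          · left; exact h.le
          · right
            rcases eq_or_lt_of_le (show y ≤ β from hy) with h' | h'
            · right; exact h'
            · left; exact ⟨h, h'⟩
        have e2 : aggregate ν f (Iic β) ≤ aggregate ν f (Iic x) := by
          calc aggregate ν f (Iic β) ≤ aggregate ν f (Iic x ∪ (Ico x β ∪ {β})) := measure_mono e1
            _ ≤ aggregate ν f (Iic x) + aggregate ν f (Ico x β ∪ {β}) := measure_union_le _ _
            _ ≤ aggregate ν f (Iic x) + (aggregate ν f (Ico x β) + aggregate ν f {β}) := by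
                gcongr; exact measure_union_le _ _
            _ = aggregate ν f (Iic x) := by rw [hzero, agg_noAtom hB hE β]; simp
        exact ENNReal.toReal_mono (measure_ne_top _ _) e2
      have hℓmono : ℓ x ≤ ℓ β := by
        simp only [hℓ]
        have : (G c - G a) / (c - a) * (x - a) ≤ (G c - G a) / (c - a) * (β - a) :=
          mul_le_mul_of_nonneg_left (by linarith [hβ.1.1]) hslope
        linarith
      have : G x < ℓ x := hcon
      linarith
    apply LinearOrder.concaveOn_of_lt (convex_Ici 0)
    intro x hx y hy hxy p q hp hq hpq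
    simp only [smul_eq_mul]
    have hz : p * x + q * y ∈ Ioo x y := by
      have : p = 1 - q := by linarith
      subst this
      constructor <;> nlinarith
    have h1 := chord x y (p * x + q * y) hx hxy hz
    refine le_trans (le_of_eq ?_) h1
    have hyx : y - x ≠ 0 := by linarith
    have : p = 1 - q := by linarith
    subst this
    field_simp
    ring
  have hle_key : ∀ᵐ i ∂ν, ∀ t : ℝ, 0 ≤ t → ∫⁻ x, ENNReal.ofReal (min x t) ∂(f i) ≤ ENNReal.ofReal (min (b i) t) := by
    filter_upwards [hE.strategy] with i hi t ht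
    have := hi.prob
    rw [← min_lintegral hi.nonneg ht]
    exact ENNReal.ofReal_le_ofReal (strat_min_le hi ht)
  have hQ : ∀ t, 0 ≤ t → ENNReal.ofReal (∫ s in (0 : ℝ)..t, (1 - GG ν f s)) =
      ∫⁻ i, ∫⁻ x, ENNReal.ofReal (min x t) ∂(f i) ∂ν := by
    intro t ht
    rw [tail_integral hE ht, min_lintegral (agg_neg hE) ht, agg_lintegral hE (by fun_prop)]
  have hQBnn : ∀ t, 0 ≤ t → 0 ≤ QB B t := by
    intro t ht
    unfold QB
    apply integral_nonneg_of_ae
    filter_upwards [ae_nonneg (measure_mono_null Iio_subset_Iic_self hB)] with x hx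
    exact le_min hx ht
  refine ⟨hmono, hcont, ?_, ?_, ?_, hconc, ?_, ?_⟩
  · -- zero
    have h1 : aggregate ν f (Iic 0) = 0 := by
      rw [← Iio_union_right (a := (0 : ℝ))]
      exact measure_union_null (agg_neg hE) (agg_noAtom hB hE 0)
    unfold GG
    rw [Measure.real, h1]; rfl
  · intro x
    exact measureReal_le_one
  · have hfun : GG ν f = (cdf (aggregate ν f)) := funext (GG_cdf hE)
    rw [hfun]
    exact tendsto_cdf_atTop _
  · -- le_QB
    intro t ht
    have h1 : ENNReal.ofReal (∫ s in (0 : ℝ)..t, (1 - GG ν f s)) ≤ ENNReal.ofReal (QB B t) := by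
      rw [hQ t ht, QB_lintegral hB hE ht]
      apply lintegral_mono_ae
      filter_upwards [hle_key] with i hi
      exact hi t ht
    exact (ENNReal.ofReal_le_ofReal_iff (hQBnn t ht)).mp h1
  · -- aff
    intro t ht hlt
    have hex : ∃ i, (0 < b i ∧ IsStrategy (f i) (b i) ∧ ∃ V p : ℝ,
      (∀ x, 0 ≤ x → U (aggregate ν f) x ≤ V + p * (x - b i)) ∧
        ∀ᵐ x ∂(f i), U (aggregate ν f) x = V + p * (x - b i)) ∧
        ∫⁻ x, ENNReal.ofReal (min x t) ∂(f i) < ENNReal.ofReal (min (b i) t) := by
      by_contra hcon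
      push Not at hcon
      have h1 : ENNReal.ofReal (QB B t) ≤ ENNReal.ofReal (∫ s in (0 : ℝ)..t, (1 - GG ν f s)) := by
        rw [hQ t ht.le, QB_lintegral hB hE ht.le]
        apply lintegral_mono_ae
        filter_upwards [hgood] with i hi
        exact hcon i hi
      have hnn : 0 ≤ ∫ s in (0 : ℝ)..t, (1 - GG ν f s) := by
        apply intervalIntegral.integral_nonneg ht.le
        intro s _
        have : GG ν f s ≤ 1 := measureReal_le_one
        linarith
      have := (ENNReal.ofReal_le_ofReal_iff hnn).mp h1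
      linarith
    obtain ⟨i, ⟨hbi, hs, V, p, h4, h5⟩, h6⟩ := hex
    have hpr := hs.prob
    rw [← min_lintegral hs.nonneg ht.le] at h6
    have h7 := (ENNReal.ofReal_lt_ofReal_iff (lt_min hbi ht)).mp h6
    obtain ⟨h8, h9⟩ := strat_sides hs h7
    -- find contact points
    have hx2 : ∃ x₂, t < x₂ ∧ U (aggregate ν f) x₂ = V + p * (x₂ - b i) := by
      by_contra hcon
      push Not at hcon
      apply h8
      refine measure_mono_null ?_ (ae_iff.mp h5)
      intro y hy
      exact hcon y hy
    have hx1 : ∃ x₁, 0 ≤ x₁ ∧ x₁ < t ∧ U (aggregate ν f) x₁ = V + p * (x₁ - b i) := by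
      by_contra hcon
      push Not at hcon
      apply h9
      have hsub : Iio t ⊆ Iio 0 ∪ {y | ¬ U (aggregate ν f) y = V + p * (y - b i)} := by
        intro y hy
        rcases lt_or_ge y 0 with h | h
        · left; exact h
        · right; exact hcon y h hy
      exact measure_mono_null hsub (measure_union_null hs.nonneg (ae_iff.mp h5))
    obtain ⟨x₂, hx2t, hx2e⟩ := hx2
    obtain ⟨x₁, hx10, hx1t, hx1e⟩ := hx1
    refine ⟨x₁, x₂, V - p * b i, p, hx10, hx1t, hx2t, fun x hx => ?_⟩
    have hx0 : 0 ≤ x := hx10.trans hx.1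
    have hup := h4 x hx0
    rw [hUG] at hup hx1e hx2e
    have h12 : 0 < x₂ - x₁ := by linarith
    have hw1 : 0 ≤ (x₂ - x) / (x₂ - x₁) := div_nonneg (by linarith [hx.2]) h12.le
    have hw2 : 0 ≤ (x - x₁) / (x₂ - x₁) := div_nonneg (by linarith [hx.1]) h12.le
    have hsum : (x₂ - x) / (x₂ - x₁) + (x - x₁) / (x₂ - x₁) = 1 := by
      rw [← add_div]; rw [div_eq_one_iff_eq h12.ne']; ring
    have hlow := hconc.2 (show x₁ ∈ Ici 0 from hx10) (show x₂ ∈ Ici 0 from hx10.trans (by linarith)) hw1 hw2 hsum
    simp only [smul_eq_mul] at hlow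
    have e3 : (x₂ - x) / (x₂ - x₁) * x₁ + (x - x₁) / (x₂ - x₁) * x₂ = x := by
      field_simp; ring
    rw [e3, hx1e, hx2e] at hlow
    have e4 : (x₂ - x) / (x₂ - x₁) * (V + p * (x₁ - b i)) + (x - x₁) / (x₂ - x₁) * (V + p * (x₂ - b i)) =
        V + p * (x - b i) := by
      field_simp; ring
    rw [e4] at hlow
    linarith

end equilibrium

/-- Any two Nash equilibria of the Population Lotto game with the same budget distribution have the
same aggregate population strategy. -/
theorem result (B : Measure ℝ) [IsProbabilityMeasure B] (hB : B (Iic 0) = 0)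
    {I₁ I₂ : Type*} [MeasurableSpace I₁] [MeasurableSpace I₂]
    {ν₁ : Measure I₁} {b₁ : I₁ → ℝ} {f₁ : Kernel I₁ ℝ}
    {ν₂ : Measure I₂} {b₂ : I₂ → ℝ} {f₂ : Kernel I₂ ℝ}
    (h₁ : IsEquilibrium B ν₁ b₁ f₁) (h₂ : IsEquilibrium B ν₂ b₂ f₂) :
    aggregate ν₁ f₁ = aggregate ν₂ f₂ := by
  have hg₁ := agg_prob h₁
  have hg₂ := agg_prob h₂
  have G₁ := good_of hB h₁
  have G₂ := good_of hB h₂
  apply Measure.eq_of_cdf
  ext x
  rw [← GG_cdf h₁, ← GG_cdf h₂]
  rcases le_or_gt 0 x with hx | hx
  · exact Pool.Agent.X129.LottoODE.uniq G₁ G₂ hx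
  · have hsub : Iic x ⊆ Iio (0 : ℝ) := fun y hy => lt_of_le_of_lt hy hx
    have e1 : GG ν₁ f₁ x = 0 := by
      unfold GG
      rw [Measure.real, measure_mono_null hsub (agg_neg h₁)]; rfl
    have e2 : GG ν₂ f₂ x = 0 := by
      unfold GG
      rw [Measure.real, measure_mono_null hsub (agg_neg h₂)]; rfl
    rw [e1, e2]

end

end Pool.Agent.Results.MP_ed16aa_pr.AggregateUnique
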